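import Pool.Agent.R700.CE

set_option autoImplicit false

namespace Pool.Agent.Results.MP_7bf690_al.RankSeven

open Pool.Agent.R700 Pool.Agent.R700.Zas Pool.Agent.R700.A7

/-- the order of integral elements -/
def R : Subring (A7 ℚ) := A7.incl.range

theorem mem_R (e : A7 ℚ) : e ∈ R ↔ ∃ s : A7 ℤ, A7.incl s = e := by
  unfold R
  exact RingHom.mem_range

theorem nsmul_eq (n : ℕ) (e : A7 ℚ) : n • e = ⟨n * e.o, n * e.x, n * e.y, n * e.z, n * e.c,
    n * e.p, n * e.q⟩ := by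
  rw [← Nat.cast_smul_eq_nsmul ℚ n]
  rfl

theorem zsmul_eq (n : ℤ) (e : A7 ℚ) : n • e = ⟨n * e.o, n * e.x, n * e.y, n * e.z, n * e.c,
    n * e.p, n * e.q⟩ := by
  rw [← Int.cast_smul_eq_zsmul ℚ n]
  rfl

theorem h1 : ∀ e : A7 ℚ, ∃ n : ℕ, 0 < n ∧ n • e ∈ R := by
  intro e
  refine ⟨e.o.den * (e.x.den * (e.y.den * (e.z.den * (e.c.den * (e.p.den * e.q.den))))), ?_, ?_⟩
  · have := e.o.den_pos
    have := e.x.den_pos
    have := e.y.den_pos
    have := e.z.den_pos
    have := e.c.den_pos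
    have := e.p.den_pos
    have := e.q.den_pos
    positivity
  · obtain ⟨a1, k1⟩ := rat_clear e.o
    obtain ⟨a2, k2⟩ := rat_clear e.x
    obtain ⟨a3, k3⟩ := rat_clear e.y
    obtain ⟨a4, k4⟩ := rat_clear e.z
    obtain ⟨a5, k5⟩ := rat_clear e.c
    obtain ⟨a6, k6⟩ := rat_clear e.p
    obtain ⟨a7, k7⟩ := rat_clear e.q
    rw [mem_R, nsmul_eq]
    refine ⟨⟨a1 * (e.x.den * (e.y.den * (e.z.den * (e.c.den * (e.p.den * e.q.den))))),
      a2 * (e.o.den * (e.y.den * (e.z.den * (e.c.den * (e.p.den * e.q.den))))),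
      a3 * (e.o.den * (e.x.den * (e.z.den * (e.c.den * (e.p.den * e.q.den))))),
      a4 * (e.o.den * (e.x.den * (e.y.den * (e.c.den * (e.p.den * e.q.den))))),
      a5 * (e.o.den * (e.x.den * (e.y.den * (e.z.den * (e.p.den * e.q.den))))),
      a6 * (e.o.den * (e.x.den * (e.y.den * (e.z.den * (e.c.den * e.q.den))))),
      a7 * (e.o.den * (e.x.den * (e.y.den * (e.z.den * (e.c.den * e.p.den)))))⟩, ?_⟩
    simp only [A7.incl, RingHom.coe_mk, MonoidHom.coe_mk, OneHom.coe_mk]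
    push_cast
    rw [← k1, ← k2, ← k3, ← k4, ← k5, ← k6, ← k7]
    ext <;> ring

theorem h2 : ∀ e : A7 ℚ,
    {p : ℕ | ∃ hp : p.Prime, ∃ f ∈ Loc R p hp, e = p • f}.Infinite → e = 0 := by
  intro e hinf
  have key : ∀ (co : A7 ℚ → ℚ) (ci : A7 ℤ → ℤ), (∀ s, co (A7.incl s) = ci s) →
      (∀ (n : ℤ) s, co (n • s) = n * co s) → (∀ (n : ℕ) s, co (n • s) = n * co s) → co e = 0 := by
    intro co ci hco hsm hsm'
    apply rat_zero
    refine hinf.mono ?_
    rintro p ⟨hp, f, hf, hef⟩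
    obtain ⟨b, hb, hbf⟩ := (mem_Loc R p hp f).1 hf
    obtain ⟨s, hs⟩ := (mem_R _).1 hbf
    refine ⟨hp, b, ci s, hb, ?_⟩
    rw [← hco, hs, hef, hsm', hsm]
    ring
  ext
  · exact key A7.o A7.o (fun _ => rfl) (fun n s => by rw [zsmul_eq]) (fun n s => by rw [nsmul_eq])
  · exact key A7.x A7.x (fun _ => rfl) (fun n s => by rw [zsmul_eq]) (fun n s => by rw [nsmul_eq])
  · exact key A7.y A7.y (fun _ => rfl) (fun n s => by rw [zsmul_eq]) (fun n s => by rw [nsmul_eq])
  · exact key A7.z A7.z (fun _ => rfl) (fun n s => by rw [zsmul_eq]) (fun n s => by rw [nsmul_eq])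
  · exact key A7.c A7.c (fun _ => rfl) (fun n s => by rw [zsmul_eq]) (fun n s => by rw [nsmul_eq])
  · exact key A7.p A7.p (fun _ => rfl) (fun n s => by rw [zsmul_eq]) (fun n s => by rw [nsmul_eq])
  · exact key A7.q A7.q (fun _ => rfl) (fun n s => by rw [zsmul_eq]) (fun n s => by rw [nsmul_eq])

/-- the generators -/
def G : Set (A7 ℚ) := {⟨0, 1, 0, 0, 0, 0, 0⟩, ⟨0, 0, 1, 0, 0, 0, 0⟩, ⟨0, 0, 0, 1, 0, 0, 0⟩}

theorem hG : Subring.closure G = R := by
  apply le_antisymm
  · rw [Subring.closure_le]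
    rintro g (rfl | rfl | rfl)
    · exact (mem_R _).2 ⟨⟨0, 1, 0, 0, 0, 0, 0⟩, by simp [A7.incl]⟩
    · exact (mem_R _).2 ⟨⟨0, 0, 1, 0, 0, 0, 0⟩, by simp [A7.incl]⟩
    · exact (mem_R _).2 ⟨⟨0, 0, 0, 1, 0, 0, 0⟩, by simp [A7.incl]⟩
  · rintro e he
    obtain ⟨s, rfl⟩ := (mem_R _).1 he
    have gx : (⟨0, 1, 0, 0, 0, 0, 0⟩ : A7 ℚ) ∈ Subring.closure G :=
      Subring.subset_closure (by simp [G])
    have gy : (⟨0, 0, 1, 0, 0, 0, 0⟩ : A7 ℚ) ∈ Subring.closure G :=
      Subring.subset_closure (by simp [G])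
    have gz : (⟨0, 0, 0, 1, 0, 0, 0⟩ : A7 ℚ) ∈ Subring.closure G :=
      Subring.subset_closure (by simp [G])
    have heq : A7.incl s = s.o • (1 : A7 ℚ) + s.x • ⟨0, 1, 0, 0, 0, 0, 0⟩ +
        s.y • ⟨0, 0, 1, 0, 0, 0, 0⟩ + s.z • ⟨0, 0, 0, 1, 0, 0, 0⟩ +
        s.c • ((⟨0, 1, 0, 0, 0, 0, 0⟩ : A7 ℚ) * ⟨0, 0, 1, 0, 0, 0, 0⟩) +
        s.p • ((⟨0, 1, 0, 0, 0, 0, 0⟩ : A7 ℚ) * ⟨0, 0, 0, 1, 0, 0, 0⟩) +
        s.q • ((⟨0, 0, 1, 0, 0, 0, 0⟩ : A7 ℚ) * ⟨0, 0, 0, 1, 0, 0, 0⟩) := by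
      simp only [zsmul_eq]
      ext <;> simp [A7.incl]
    rw [heq]
    refine Subring.add_mem _ (Subring.add_mem _ (Subring.add_mem _ (Subring.add_mem _
      (Subring.add_mem _ (Subring.add_mem _ ?_ ?_) ?_) ?_) ?_) ?_) ?_
    · exact Subring.zsmul_mem _ (Subring.one_mem _) _
    · exact Subring.zsmul_mem _ gx _
    · exact Subring.zsmul_mem _ gy _
    · exact Subring.zsmul_mem _ gz _
    · exact Subring.zsmul_mem _ (Subring.mul_mem _ gx gy) _
    · exact Subring.zsmul_mem _ (Subring.mul_mem _ gx gz) _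
    · exact Subring.zsmul_mem _ (Subring.mul_mem _ gy gz) _

theorem hsq : ∀ g ∈ G, g * g = 0 ∨ g * g = g := by
  rintro g (rfl | rfl | rfl) <;> left <;> ext <;> simp

/-- the order is isomorphic to the integral version of the algebra -/
noncomputable def equivR : A7 ℤ ≃+* R :=
  RingEquiv.ofBijective (A7.incl.codRestrict R (fun s => (mem_R _).2 ⟨s, rfl⟩))
    ⟨fun s t h => A7.incl_injective (congrArg Subtype.val h),
      fun ⟨e, he⟩ => by
        obtain ⟨s, rfl⟩ := (mem_R _).1 he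
        exact ⟨s, rfl⟩⟩

theorem sq_eq (n : ℕ) (s : A7 ℤ) (hn : 0 < n) (h : s * s = n • s) : s = 0 ∨ s = n • 1 := by
  have hz : ∀ (n : ℕ) (e : A7 ℤ), n • e = ⟨n * e.o, n * e.x, n * e.y, n * e.z, n * e.c,
    n * e.p, n * e.q⟩ := by
    intro n e
    induction n with
    | zero => rw [zero_nsmul]; ext <;> simp
    | succ n ih => rw [succ_nsmul, ih]; ext <;> simp <;> ring
  rw [hz] at h ⊢
  have k1 := congrArg A7.o h
  have k2 := congrArg A7.x h
  have k3 := congrArg A7.y h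
  have k4 := congrArg A7.z h
  have k5 := congrArg A7.c h
  have k6 := congrArg A7.p h
  have k7 := congrArg A7.q h
  simp only [A7.mul_o, A7.mul_x, A7.mul_y, A7.mul_z, A7.mul_c, A7.mul_p, A7.mul_q] at k1 k2 k3 k4 k5 k6 k7
  have hn' : (n : ℤ) ≠ 0 := by exact_mod_cast hn.ne'
  have ho : s.o = 0 ∨ s.o = n := by
    have : s.o * (s.o - n) = 0 := by linarith
    rcases mul_eq_zero.1 this with h | h
    · exact Or.inl h
    · right; linarith
  have e2 : s.x = 0 := by
    rcases ho with ho | ho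
    · rw [ho] at k2
      have : (n : ℤ) * s.x = 0 := by linarith
      exact (mul_eq_zero.1 this).resolve_left hn'
    · rw [ho] at k2
      have : (n : ℤ) * s.x = 0 := by linarith
      exact (mul_eq_zero.1 this).resolve_left hn'
  have e3 : s.y = 0 := by
    rcases ho with ho | ho
    · rw [ho] at k3
      have : (n : ℤ) * s.y = 0 := by linarith
      exact (mul_eq_zero.1 this).resolve_left hn'
    · rw [ho] at k3
      have : (n : ℤ) * s.y = 0 := by linarith
      exact (mul_eq_zero.1 this).resolve_left hn'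
  have e4 : s.z = 0 := by
    rcases ho with ho | ho
    · rw [ho] at k4
      have : (n : ℤ) * s.z = 0 := by linarith
      exact (mul_eq_zero.1 this).resolve_left hn'
    · rw [ho] at k4
      have : (n : ℤ) * s.z = 0 := by linarith
      exact (mul_eq_zero.1 this).resolve_left hn'
  rw [e2, e3] at k5
  rw [e2, e4] at k6
  rw [e3, e4] at k7
  have e5 : s.c = 0 := by
    rcases ho with ho | ho
    · rw [ho] at k5
      have : (n : ℤ) * s.c = 0 := by linarith
      exact (mul_eq_zero.1 this).resolve_left hn'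
    · rw [ho] at k5
      have : (n : ℤ) * s.c = 0 := by linarith
      exact (mul_eq_zero.1 this).resolve_left hn'
  have e6 : s.p = 0 := by
    rcases ho with ho | ho
    · rw [ho] at k6
      have : (n : ℤ) * s.p = 0 := by linarith
      exact (mul_eq_zero.1 this).resolve_left hn'
    · rw [ho] at k6
      have : (n : ℤ) * s.p = 0 := by linarith
      exact (mul_eq_zero.1 this).resolve_left hn'
  have e7 : s.q = 0 := by
    rcases ho with ho | ho
    · rw [ho] at k7
      have : (n : ℤ) * s.q = 0 := by linarith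
      exact (mul_eq_zero.1 this).resolve_left hn'
    · rw [ho] at k7
      have : (n : ℤ) * s.q = 0 := by linarith
      exact (mul_eq_zero.1 this).resolve_left hn'
  rcases ho with ho | ho
  · left
    ext <;> simp [ho, e2, e3, e4, e5, e6, e7]
  · right
    ext <;> simp [ho, e2, e3, e4, e5, e6, e7]

/-- coordinates over the rational numbers -/
def coordQ : A7 ℚ ≃ₗ[ℚ] (Fin 7 → ℚ) where
  toFun s := ![s.o, s.x, s.y, s.z, s.c, s.p, s.q]
  invFun v := ⟨v 0, v 1, v 2, v 3, v 4, v 5, v 6⟩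
  left_inv s := rfl
  right_inv v := by
    funext i
    fin_cases i <;> rfl
  map_add' s t := by
    funext i
    fin_cases i <;> rfl
  map_smul' s t := by
    funext i
    fin_cases i <;> rfl

theorem rankZ : Module.rank ℤ (A7 ℚ) = 7 := by
  rw [← IsLocalization.rank_eq ℚ (nonZeroDivisors ℤ) le_rfl, LinearEquiv.rank_eq coordQ]
  simp

theorem rank_grp (h : ℕ → A7 ℚ) (hh : ∀ p, h p ∈ R) : Module.finrank ℤ (Grp R h) = 7 := by
  have h1 : Module.rank ℤ (Grp R h) ≤ 7 := by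
    rw [← rankZ]
    exact LinearMap.rank_le_of_injective ((Grp R h).subtype.toIntLinearMap)
      (fun a b hab => Subtype.ext hab)
  have h2 : (7 : Cardinal) ≤ Module.rank ℤ (Grp R h) := by
    have h3 : Module.rank ℤ (Fin 7 → ℤ) = 7 := by simp
    rw [← h3]
    let f : (Fin 7 → ℤ) →+ Grp R h :=
      ((A7.incl.toAddMonoidHom.comp (A7.coord (K := ℤ)).symm.toAddMonoidHom).codRestrict
        (Grp R h) (fun v => le_Grp hh ((mem_R _).2 ⟨_, rfl⟩)))
    refine LinearMap.rank_le_of_injective f.toIntLinearMap ?_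
    intro a b hab
    have h4 : A7.incl ((A7.coord (K := ℤ)).symm a) = A7.incl ((A7.coord (K := ℤ)).symm b) :=
      congrArg Subtype.val hab
    exact (A7.coord (K := ℤ)).symm.injective (A7.incl_injective h4)
  have h3 : Module.rank ℤ (Grp R h) = 7 := le_antisymm h1 h2
  rw [Module.finrank, h3]
  simp

/-- There is a strongly indecomposable torsion-free abelian group of rank seven whose endomorphism
ring is centrally essential and not commutative. -/
theorem result : ∃ (A : Type) (_ : AddCommGroup A),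
    (∀ (n : ℕ) (a : A), 0 < n → n • a = 0 → a = 0) ∧
    Module.finrank ℚ (TensorProduct ℤ ℚ A) = 7 ∧
    StronglyIndecomposable A ∧
    CentrallyEssential (AddMonoid.End A) ∧
    ∃ f g : AddMonoid.End A, f * g ≠ g * f := by
  obtain ⟨h, hh, ⟨e⟩⟩ := exists_end R h1 h2 G hG (by
    unfold G
    exact (Set.toFinite _).countable) hsq
  have htf : ∀ (n : ℕ) (a : Grp R h), 0 < n → n • a = 0 → a = 0 := by
    intro n a hn ha
    have h3 : n • (a : A7 ℚ) = 0 := by
      rw [← AddSubgroup.coe_nsmul, ha]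
      rfl
    rw [← Nat.cast_smul_eq_nsmul ℚ n] at h3
    have hn0 : (n : ℚ) ≠ 0 := by exact_mod_cast hn.ne'
    apply Subtype.ext
    have h4 := congrArg (fun z : A7 ℚ => (n : ℚ)⁻¹ • z) h3
    simp only [smul_smul, inv_mul_cancel₀ hn0, one_smul, smul_zero] at h4
    exact h4
  let E : A7 ℤ ≃+* AddMonoid.End (Grp R h) := equivR.trans e
  have hnt : Nontrivial (Grp R h) :=
    ⟨⟨1, le_Grp hh R.one_mem⟩, 0, fun hc => by
      have := congrArg (fun z : Grp R h => (z : A7 ℚ).o) hc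
      simp at this⟩
  refine ⟨Grp R h, inferInstance, htf, ?_, ?_, ?_, ?_⟩
  · rw [(TensorProduct.isBaseChange ℤ (Grp R h) ℚ).finrank_eq]
    exact rank_grp h hh
  · refine stronglyIndecomposable_of htf ?_
    intro n f hn hf
    have h3 : E.symm f * E.symm f = n • E.symm f := by
      rw [← map_mul, hf, map_nsmul]
    rcases sq_eq n _ hn h3 with h4 | h4
    · left
      exact (map_eq_zero_iff E.symm E.symm.injective).1 h4
    · right
      apply E.symm.injective
      rw [h4, map_nsmul, map_one]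
  · exact A7.cE.of_equiv E
  · refine ⟨E ⟨0, 1, 0, 0, 0, 0, 0⟩, E ⟨0, 0, 1, 0, 0, 0, 0⟩, ?_⟩
    rw [← map_mul, ← map_mul]
    intro hc
    have h3 := congrArg A7.c (E.injective hc)
    simp at h3

end Pool.Agent.Results.MP_7bf690_al.RankSeven
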